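import Mathlib

/-!
# Finite solutions of the Yang–Baxter equation given by tables
-/

set_option autoImplicit false

namespace Pool.Agent.D0H74.YB

/-- Entry `(i, j)` of a table. -/
def ap (T : List (List ℕ)) (i j : ℕ) : ℕ := (T.getD i []).getD j 0

/-- All pairs of indices below `n` satisfy `P`. -/
def all2 (n : ℕ) (P : ℕ → ℕ → Bool) : Bool :=
  (List.range n).all fun i => (List.range n).all fun j => P i j

theorem all2_iff {n : ℕ} {P : ℕ → ℕ → Bool} :
    all2 n P = true ↔ ∀ i < n, ∀ j < n, P i j = true := by
  simp [all2, List.all_eq_true, List.mem_range]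

/-- All triples of indices below `n` satisfy `P`. -/
def all3 (n : ℕ) (P : ℕ → ℕ → ℕ → Bool) : Bool :=
  (List.range n).all fun i => all2 n (P i)

theorem all3_iff {n : ℕ} {P : ℕ → ℕ → ℕ → Bool} :
    all3 n P = true ↔ ∀ i < n, ∀ j < n, ∀ k < n, P i j k = true := by
  simp [all3, List.all_eq_true, List.mem_range, all2_iff]

/-- The pair obtained from `(i, j)` by one step: both entries are multiplied by the same element on
the left or on the right, as the tables `NT`, `NZ` say. -/
def nxt (S NT NZ : List (List ℕ)) (i j : ℕ) : ℕ × ℕ :=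
  if ap NT i j = 0 then (ap S (ap NZ i j) i, ap S (ap NZ i j) j)
  else (ap S i (ap NZ i j), ap S j (ap NZ i j))

/-- The check that the steps lead from every pair of different elements to `(0, 1)` or `(1, 0)`. -/
def rankCheck (S NT NZ RK : List (List ℕ)) (n : ℕ) : Bool :=
  all2 n fun i j => decide (i = j) || (decide (i = 0) && decide (j = 1)) ||
    (decide (i = 1) && decide (j = 0)) ||
    (decide (ap NZ i j < n) && (!decide ((nxt S NT NZ i j).1 = (nxt S NT NZ i j).2)) &&
      decide (ap RK (nxt S NT NZ i j).1 (nxt S NT NZ i j).2 < ap RK i j))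

section
variable {n : ℕ} {R : ℕ → ℕ → Prop}

theorem root_of_check (hR : Equivalence R) {S NT NZ RK : List (List ℕ)}
    (hS : ∀ i < n, ∀ j < n, ap S i j < n)
    (hl : ∀ z < n, ∀ i < n, ∀ j < n, R i j → R (ap S z i) (ap S z j))
    (hr : ∀ z < n, ∀ i < n, ∀ j < n, R i j → R (ap S i z) (ap S j z))
    (hc : rankCheck S NT NZ RK n = true) :
    ∀ m : ℕ, ∀ i < n, ∀ j < n, i ≠ j → ap RK i j ≤ m → R i j → R 0 1 := by
  unfold rankCheck at hc
  rw [all2_iff] at hc
  intro m
  induction m with
  | zero =>
    intro i hi j hj hij hm h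
    have h1 := hc i hi j hj
    simp only [Bool.or_eq_true, Bool.and_eq_true, decide_eq_true_eq, Bool.not_eq_true'] at h1
    rcases h1 with ((h1 | h1) | h1) | h1
    · exact absurd h1 hij
    · rw [h1.1, h1.2] at h
      exact h
    · rw [h1.1, h1.2] at h
      exact hR.symm h
    · omega
  | succ m ih =>
    intro i hi j hj hij hm h
    have h1 := hc i hi j hj
    simp only [Bool.or_eq_true, Bool.and_eq_true, decide_eq_true_eq, Bool.not_eq_true',
      decide_eq_false_iff_not] at h1
    rcases h1 with ((h1 | h1) | h1) | h1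
    · exact absurd h1 hij
    · rw [h1.1, h1.2] at h
      exact h
    · rw [h1.1, h1.2] at h
      exact hR.symm h
    · obtain ⟨⟨hz, hne⟩, hlt⟩ := h1
      by_cases ht : ap NT i j = 0
      · have e : nxt S NT NZ i j = (ap S (ap NZ i j) i, ap S (ap NZ i j) j) := by
          unfold nxt; rw [if_pos ht]
        rw [e] at hne hlt
        dsimp only at hne hlt
        exact ih _ (hS _ hz _ hi) _ (hS _ hz _ hj) hne (by omega) (hl _ hz _ hi _ hj h)
      · have e : nxt S NT NZ i j = (ap S i (ap NZ i j), ap S j (ap NZ i j)) := by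
          unfold nxt; rw [if_neg ht]
        rw [e] at hne hlt
        dsimp only at hne hlt
        exact ih _ (hS _ hi _ hz) _ (hS _ hj _ hz) hne (by omega) (hr _ hz _ hi _ hj h)

end

end Pool.Agent.D0H74.YB
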